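import Pool.Agent.Helper16.SD.GoalsD
import Pool.Agent.Helper65.TH.TOR

/-!
# MP_fc6b1e_nt, project SD, packet D_TOR: the torsion
-/

set_option autoImplicit false

namespace Pool.Agent.Helper23.SD.D_TOR

open NumberField Module IsDedekindDomain TensorProduct
open Pool.Agent.Helper51.SigLeo Pool.Agent.Helper51.RP Pool.Agent.Helper51.REC
open Pool.Agent.Helper38.FD (Chr CutsOut LeopoldtFor)
open Pool.Agent.Helper38.FW (InDec)
open Pool.Agent.Helper17.TH (ug exO tm)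
open Pool.Agent.Helper16.SD

/-- The difference of two roots of unity divides the order. -/
theorem dvd_order {O : Type} [CommRing O] [IsDomain O] (x w : O) (d : ℕ) (hd : 0 < d)
    (hx : x ^ d = 1) (hw : w ^ d = 1) (hne : x ≠ w) : x - w ∣ (d : O) := by
  have h1 : ∑ i ∈ Finset.range d, x ^ i * w ^ (d - 1 - i) = 0 := by
    have h2 : (∑ i ∈ Finset.range d, x ^ i * w ^ (d - 1 - i)) * (x - w) = x ^ d - w ^ d :=
      geom_sum₂_mul x w d
    rw [hx, hw, sub_self] at h2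
    exact (mul_eq_zero.1 h2).resolve_right (sub_ne_zero.2 hne)
  have h3 : x - w ∣ ∑ i ∈ Finset.range d, (x ^ i - w ^ i) * w ^ (d - 1 - i) :=
    Finset.dvd_sum fun i _ => Dvd.dvd.mul_right (sub_dvd_pow_sub_pow x w i) _
  have h4 : ∑ i ∈ Finset.range d, (x ^ i - w ^ i) * w ^ (d - 1 - i) =
      -((d : O) * w ^ (d - 1)) := by
    have h5 : ∑ i ∈ Finset.range d, w ^ i * w ^ (d - 1 - i) = (d : O) * w ^ (d - 1) := by
      rw [Finset.sum_congr rfl (g := fun _ => w ^ (d - 1))]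
      · rw [Finset.sum_const, Finset.card_range, nsmul_eq_mul]
      · intro i hi
        rw [← pow_add]
        congr 1
        have := Finset.mem_range.1 hi
        omega
    simp only [sub_mul]
    rw [Finset.sum_sub_distrib, h1, h5, zero_sub]
  rw [h4, dvd_neg] at h3
  have h5 : (d : O) = (d : O) * w ^ (d - 1) * w := by
    rw [mul_assoc, ← pow_succ, Nat.sub_add_cancel hd, hw, mul_one]
  rw [h5]
  exact Dvd.dvd.mul_right h3 _

theorem dvd_pow_p {p : ℕ} [Fact p.Prime] {O : Type} [CommRing O] [Algebra ℤ_[p] O] (a : O)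
    (d : ℕ) (hd : 0 < d) (h : a ∣ (d : O)) : ∃ C : ℕ, a ∣ (p : O) ^ C := by
  obtain ⟨C, m, hm, hdm⟩ :=
    Nat.exists_eq_pow_mul_and_not_dvd hd.ne' p (Fact.out : p.Prime).ne_one
  refine ⟨C, ?_⟩
  have hu : IsUnit ((m : ℕ) : ℤ_[p]) := by
    rw [PadicInt.isUnit_iff, PadicInt.norm_natCast_eq_one_iff]
    exact (Nat.Prime.coprime_iff_not_dvd (Fact.out : p.Prime)).2 hm
  have hu2 : IsUnit ((m : ℕ) : O) := by
    have := hu.map (algebraMap ℤ_[p] O)
    rwa [map_natCast] at this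
  rw [hdm, Nat.cast_mul, Nat.cast_pow] at h
  exact (IsUnit.dvd_mul_right hu2).1 h

section order

variable {p : ℕ} [Fact p.Prime] {K : Type} [Field K] [NumberField K]

theorem fin_order (om : (AlgebraicClosure K ≃ₐ[K] AlgebraicClosure K) →* ℤ_[p]ˣ)
    (χ : Chr K (AlgebraicClosure K) ℂ_[p]) (F : IntermediateField K (AlgebraicClosure K))
    [NumberField F] [IsGalois K F] (h : CutF χ om F)
    (g : AlgebraicClosure K ≃ₐ[K] AlgebraicClosure K) :
    ∃ d : ℕ, 0 < d ∧ χ g ^ d = 1 ∧ om g ^ d = 1 := by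
  have hfin : FiniteDimensional K F := FiniteDimensional.right ℚ K F
  have hfin2 : Finite (F ≃ₐ[K] F) := inferInstance
  refine ⟨Nat.card (F ≃ₐ[K] F), Nat.card_pos, ?_⟩
  have h1 : (AlgEquiv.restrictNormalHom F g) ^ Nat.card (F ≃ₐ[K] F) = 1 := pow_card_eq_one'
  rw [← map_pow] at h1
  have h2 : ∀ x ∈ F, (g ^ Nat.card (F ≃ₐ[K] F)) x = x := by
    intro x hx
    have h3 := AlgEquiv.restrictNormal_commutes (g ^ Nat.card (F ≃ₐ[K] F)) F ⟨x, hx⟩
    have h4 : (AlgEquiv.restrictNormal (g ^ Nat.card (F ≃ₐ[K] F)) F) = 1 := h1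
    rw [h4] at h3
    exact h3.symm
  have h3 := (h _).1 h2
  rw [map_pow, map_pow] at h3
  exact h3

end order

/-- the action on the units of `p`-power order -/
theorem ug_tors {p : ℕ} [Fact p.Prime] {K : Type} [Field K] [NumberField K]
    (E : IntermediateField K (AlgebraicClosure K)) [NumberField E] [IsGalois K E]
    (g : AlgebraicClosure K ≃ₐ[K] AlgebraicClosure K) (N : ℕ) (x : Additive (𝓞 E)ˣ)
    (hx : p ^ N • x = 0) :
    ug E g x = ((cyc p g : ℤ_[p]ˣ).val.toZModPow N).val • x := by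
  have h4 : (x.toMul : (𝓞 E)ˣ) ^ p ^ N = 1 := by
    have := congrArg Additive.toMul hx
    simpa using this
  have h7 : (((x.toMul : (𝓞 E)ˣ) : E) : AlgebraicClosure K) ^ p ^ N = 1 := by
    have h8 := congrArg (fun y : (𝓞 E)ˣ => (((y : 𝓞 E) : E) : AlgebraicClosure K)) h4
    simpa using h8
  have h9 : g (((x.toMul : (𝓞 E)ˣ) : E) : AlgebraicClosure K) =
      (((x.toMul : (𝓞 E)ˣ) : E) : AlgebraicClosure K) ^
        ((cyc p g : ℤ_[p]ˣ).val.toZModPow N).val :=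
    cyclotomicCharacter.spec p (g : AlgebraicClosure K ≃+* AlgebraicClosure K) _ h7
  apply Additive.toMul.injective
  apply Units.ext
  apply RingOfIntegers.ext
  apply Subtype.ext
  have h10 : (((((ug E g x).toMul : (𝓞 E)ˣ) : 𝓞 E) : E) : AlgebraicClosure K) =
      g (((x.toMul : (𝓞 E)ˣ) : E) : AlgebraicClosure K) :=
    AlgEquiv.restrictNormal_commutes g E _
  rw [h10, h9]
  simp

theorem exO_tmul {O : Type} [CommRing O] {A : Type} [AddCommGroup A] (f : A →+ A) (o : O) (a : A) :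
    exO O f (o ⊗ₜ a) = o ⊗ₜ f a := rfl

theorem t : Pool.Agent.Helper16.SD.D_TOR := by
  intro p _ K _ _ Lg η om u hCyc χ ν F _ _ B hBase O _ _ _ j c cn hCoef
  -- an embedding and the element `g`
  obtain ⟨τ₀, -⟩ := hBase.ne
  obtain ⟨τ⟩ : Nonempty (AlgebraicClosure K →+* ℂ_[p]) := by
    have := τ₀.toAlgebra
    exact ⟨((IsAlgClosed.lift : AlgebraicClosure K →ₐ[K] ℂ_[p]) :
      AlgebraicClosure K →+* ℂ_[p])⟩
  obtain ⟨g, -, hg⟩ := hBase.dec' τ
  obtain ⟨d, hd, hχd, homd⟩ := fin_order om χ F hBase.cutF g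
  have hzp : ∀ x : ℤ_[p], j (algebraMap ℤ_[p] O x) = zp p x := hCoef.alg
  -- `c g ≠ om g`
  have hne : c g ≠ algebraMap ℤ_[p] O (om g : ℤ_[p]ˣ) := by
    intro h
    have h1 : ((χ g : ℂ_[p]ˣ) : ℂ_[p]) = zp p (om g : ℤ_[p]ˣ) := by
      rw [← hCoef.c g, h, hzp]
    have h2 := hBase.mul g
    rw [← h1] at h2
    have h3 : ((ν g : ℂ_[p]ˣ) : ℂ_[p]) = 1 := by
      have h4 : ((χ g : ℂ_[p]ˣ) : ℂ_[p]) * (ν g : ℂ_[p]ˣ) = ((χ g : ℂ_[p]ˣ) : ℂ_[p]) * 1 := by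
        rw [mul_one]; exact h2
      exact mul_left_cancel₀ (Units.ne_zero _) h4
    exact hg (Units.ext h3)
  have hcd : c g ^ d = 1 := by
    apply hCoef.inj
    rw [map_pow, hCoef.c g, map_one, ← Units.val_pow_eq_pow_val, hχd, Units.val_one]
  have hwd : (algebraMap ℤ_[p] O (om g : ℤ_[p]ˣ)) ^ d = 1 := by
    rw [← map_pow, ← Units.val_pow_eq_pow_val, homd, Units.val_one, map_one]
  obtain ⟨C, hC⟩ := dvd_pow_p (p := p) _ d hd (dvd_order _ _ d hd hcd hwd hne)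
  obtain ⟨D', hD'⟩ := hC
  refine ⟨C, ?_⟩
  intro E _ _ k a ι _ b ξ y z hξ hz hcong
  obtain ⟨y1, hy1⟩ := hcong g
  obtain ⟨N, hN⟩ : ∃ N : ℕ, N = a + C + k := ⟨_, rfl⟩
  obtain ⟨n, hn⟩ : ∃ n : ℕ, n = ((cyc p g : ℤ_[p]ˣ).val.toZModPow N).val := ⟨_, rfl⟩
  have hug : ∀ i, ug E g (ξ i) = n • ξ i := by
    intro i
    rw [hn]
    apply ug_tors
    rw [hN, add_assoc, pow_add, mul_comm, mul_smul, hξ i, smul_zero]
  -- `n` and the cyclotomic character
  have hcyc : (p : ℤ_[p]) ^ N ∣ ((cyc p g : ℤ_[p]ˣ) : ℤ_[p]) - (n : ℤ_[p]) := by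
    rw [← Ideal.mem_span_singleton, ← PadicInt.ker_toZModPow, RingHom.mem_ker, map_sub,
      map_natCast, hn, ZMod.natCast_zmod_val, sub_self]
  obtain ⟨t', ht'⟩ := hcyc
  rw [hCyc.mul g, Units.val_mul] at ht'
  -- names
  obtain ⟨w, hw⟩ : ∃ w : O, w = algebraMap ℤ_[p] O (om g : ℤ_[p]ˣ) := ⟨_, rfl⟩
  obtain ⟨U, hU⟩ : ∃ U : O, U = algebraMap ℤ_[p] O (u g : ℤ_[p]ˣ) := ⟨_, rfl⟩
  obtain ⟨V, hV⟩ : ∃ V : O, V * U = 1 := by
    refine ⟨algebraMap ℤ_[p] O ((u g)⁻¹ : ℤ_[p]ˣ), ?_⟩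
    rw [hU, ← map_mul, ← Units.val_mul, inv_mul_cancel, Units.val_one, map_one]
  obtain ⟨T, hT⟩ : ∃ T : O, T = algebraMap ℤ_[p] O t' := ⟨_, rfl⟩
  rw [← hw] at hD'
  rw [← hU] at hy1
  have hnO : (n : O) = w * U - (p : O) ^ N * T := by
    have h1 := congrArg (algebraMap ℤ_[p] O) ht'
    rw [map_sub, map_mul, map_natCast, map_mul, map_pow, map_natCast, ← hw, ← hU, ← hT] at h1
    rw [← h1]
    ring
  -- the action on `z`
  have hact : exO O (ug E g) z = (n : O) • z + (p : O) ^ k • (exO O (ug E g) y - (n : O) • y) := by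
    have h1 : exO O (ug E g) z = ∑ i, b i ⊗ₜ (n • ξ i) + p ^ k • exO O (ug E g) y := by
      rw [hz, map_add, map_sum, map_nsmul]
      congr 1
      refine Finset.sum_congr rfl fun i _ => ?_
      rw [exO_tmul, hug i]
    have h2 : ∑ i, b i ⊗ₜ[ℤ] (n • ξ i) = n • ∑ i, b i ⊗ₜ[ℤ] ξ i := by
      rw [Finset.smul_sum]
      refine Finset.sum_congr rfl fun i _ => ?_
      rw [TensorProduct.tmul_smul]
    have h3 : ∑ i, b i ⊗ₜ[ℤ] ξ i = z - p ^ k • y := by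
      rw [hz, add_sub_cancel_right]
    rw [h1, h2, h3]
    have h4 : ∀ (m : ℕ) (x : O ⊗[ℤ] Additive (𝓞 E)ˣ), m • x = (m : O) • x :=
      fun m x => (Nat.cast_smul_eq_nsmul O m x).symm
    rw [h4, h4, h4, Nat.cast_pow, smul_sub, smul_sub, smul_smul, smul_smul, mul_comm (n : O)]
    abel
  have hdiff : ((n : O) - c g * U) • z =
      (p : O) ^ k • (y1 - (exO O (ug E g) y - (n : O) • y)) := by
    have h4 : ∀ (m : ℕ) (x : O ⊗[ℤ] Additive (𝓞 E)ˣ), m • x = (m : O) • x :=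
      fun m x => (Nat.cast_smul_eq_nsmul O m x).symm
    rw [h4, Nat.cast_pow, hact] at hy1
    rw [smul_sub, ← hy1, sub_smul]
    abel
  -- the conclusion
  have hkey : (p : O) ^ C = V * (-(D' * ((n : O) - c g * U)) - (p : O) ^ k *
      ((p : O) ^ (a + C) * (T * D'))) := by
    have h1 : (p : O) ^ N = (p : O) ^ k * (p : O) ^ (a + C) := by
      rw [hN, ← pow_add, add_comm]
    rw [hnO, h1, hD']
    have h2 : V * (-(D' * (w * U - (p : O) ^ k * (p : O) ^ (a + C) * T - c g * U)) -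
        (p : O) ^ k * ((p : O) ^ (a + C) * (T * D'))) = (V * U) * ((c g - w) * D') := by ring
    rw [h2, hV, one_mul]
  obtain ⟨Y, hY⟩ : ∃ Y : O ⊗[ℤ] Additive (𝓞 E)ˣ,
      Y = y1 - (exO O (ug E g) y - (n : O) • y) := ⟨_, rfl⟩
  rw [← hY] at hdiff
  refine ⟨V • (-(D' • Y) - ((p : O) ^ (a + C) * (T * D')) • z), ?_⟩
  have h4 : ∀ (m : ℕ) (x : O ⊗[ℤ] Additive (𝓞 E)ˣ), m • x = (m : O) • x :=
    fun m x => (Nat.cast_smul_eq_nsmul O m x).symm
  rw [h4, h4, Nat.cast_pow, Nat.cast_pow, hkey, mul_smul, sub_smul, neg_smul, mul_smul, hdiff,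
    smul_comm ((p : O) ^ k) V, smul_sub ((p : O) ^ k), smul_neg ((p : O) ^ k),
    smul_comm ((p : O) ^ k) D' Y, ← mul_smul ((p : O) ^ k)]

end Pool.Agent.Helper23.SD.D_TOR
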